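import Pool.Agent.R197.C64.Main

/-!
# MP_c64b61_an: continuous maps on the extreme points of an (S,R,C) compact set extend to affine
Baire-one maps
-/

open Set Filter Topology MeasureTheory

namespace Pool.Agent.Results.MP_c64b61_an.Extension

open C64

/-- Case (S): simplices. -/
def CaseS.{u, z} : Prop :=
  ∀ (V : Type u) [AddCommGroup V] [Module ℝ V] [TopologicalSpace V] [IsTopologicalAddGroup V]
    [ContinuousSMul ℝ V] [LocallyConvexSpace ℝ V] [T2Space V]
    (F : Type z) [AddCommGroup F] [Module ℝ F] [UniformSpace F] [IsUniformAddGroup F]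
    [ContinuousSMul ℝ F] [LocallyConvexSpace ℝ F] [T2Space F] [CompleteSpace F]
    [FirstCountableTopology F]
    (X : Set V), IsCompact X → Convex ℝ X → IsSimplex X → IsLindelof (X.extremePoints ℝ) →
    ∀ f : V → F, ContinuousOn f (X.extremePoints ℝ) →
      Bornology.IsVonNBounded ℝ (f '' X.extremePoints ℝ) →
      ∃ g : V → F, A1 X g ∧ EqOn g f (X.extremePoints ℝ)

/-- Case (R): dual balls of real `L₁`-preduals, odd maps. -/
def CaseR.{v, w, z} : Prop :=
  ∀ (E : Type v) [NormedAddCommGroup E] [NormedSpace ℝ E] [CompleteSpace E],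
    IsL1Predual.{0, v, w} ℝ E →
  ∀ (F : Type z) [AddCommGroup F] [Module ℝ F] [UniformSpace F] [IsUniformAddGroup F]
    [ContinuousSMul ℝ F] [LocallyConvexSpace ℝ F] [T2Space F] [CompleteSpace F]
    [FirstCountableTopology F],
    IsLindelof ((dualBall ℝ E).extremePoints ℝ) →
    ∀ f : WeakDual ℝ E → F, ContinuousOn f ((dualBall ℝ E).extremePoints ℝ) →
      Bornology.IsVonNBounded ℝ (f '' (dualBall ℝ E).extremePoints ℝ) →
      (∀ y ∈ (dualBall ℝ E).extremePoints ℝ, f (-y) = -f y) →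
      ∃ g : WeakDual ℝ E → F, A1 (dualBall ℝ E) g ∧ EqOn g f ((dualBall ℝ E).extremePoints ℝ)

/-- Case (C): dual balls of complex `L₁`-preduals, homogeneous maps. -/
def CaseC.{v, w, z} : Prop :=
  ∀ (E : Type v) [NormedAddCommGroup E] [NormedSpace ℂ E] [CompleteSpace E],
    IsL1Predual.{0, v, w} ℂ E →
  ∀ (F : Type z) [AddCommGroup F] [Module ℂ F] [UniformSpace F] [IsUniformAddGroup F]
    [ContinuousSMul ℂ F] [LocallyConvexSpace ℝ F] [T2Space F] [CompleteSpace F]
    [FirstCountableTopology F],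
    IsLindelof ((dualBall ℂ E).extremePoints ℝ) →
    ∀ f : WeakDual ℂ E → F, ContinuousOn f ((dualBall ℂ E).extremePoints ℝ) →
      Bornology.IsVonNBounded ℝ (f '' (dualBall ℂ E).extremePoints ℝ) →
      (∀ y ∈ (dualBall ℂ E).extremePoints ℝ, ∀ α : ℂ, ‖α‖ = 1 → f (α • y) = α • f y) →
      ∃ g : WeakDual ℂ E → F, A1 (dualBall ℂ E) g ∧ EqOn g f ((dualBall ℂ E).extremePoints ℝ)

/-- The answer to Q1 is yes, in all three cases. -/
theorem result.{u, v, w, z} : CaseS.{u, z} ∧ CaseR.{v, w, z} ∧ CaseC.{v, w, z} := by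
  refine ⟨?_, ?_, ?_⟩
  · intro V _ _ _ _ _ _ _ F _ _ _ _ _ _ _ _ _ X hX hc hs hL f hf hb
    exact main_S hX hc hs hL f hf hb
  · intro E _ _ _ hE F _ _ _ _ _ _ _ _ _ hL f hf hb hodd
    refine main_RC (𝕜 := ℝ) hE hL f hf hb ?_
    intro y hy α hα
    rcases (abs_eq (zero_le_one' ℝ)).1 ((Real.norm_eq_abs α).symm.trans hα) with h | h
    · rw [h, one_smul, one_smul]
    · rw [h, neg_one_smul, neg_one_smul]
      exact hodd y hy
  · intro E _ _ _ hE F _ _ _ _ _ _ _ _ _ hL f hf hb hhom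
    have hcs : ContinuousSMul ℝ F := by
      refine ⟨?_⟩
      have h1 : (fun p : ℝ × F => p.1 • p.2) = fun p => (p.1 : ℂ) • p.2 := by
        funext p
        exact (Complex.coe_smul p.1 p.2).symm
      rw [h1]
      exact (Complex.continuous_ofReal.comp continuous_fst).smul continuous_snd
    exact main_RC (𝕜 := ℂ) hE hL f hf hb hhom

end Pool.Agent.Results.MP_c64b61_an.Extension
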